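import Pool.Agent.H99K.Sing

/-!
# Singular Clark measures exclude left regularity
-/

open Filter Topology Complex MeasureTheory Set Metric Matrix
open scoped Real ENNReal NNReal ComplexOrder

namespace Pool.Agent.H99K

open Pool.Agent.RegJ Pool.Agent.RegK Pool.Agent.H2RJ

set_option linter.unusedSectionVars false

variable {m n : Type*} [Fintype m] [DecidableEq m] [Fintype n] [DecidableEq n]

lemma SP11 (φ : ℂ → ℂ) (x : m → ℂ) (y : n → ℂ) (z : ℂ) :
    (SP φ x y z).toBlocks₁₁ = 1 - φ z • vecMulVec x (star x) := by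
  ext i j
  simp [SP, toBlocks₁₁, NV, bv, vecMulVec_apply, Matrix.one_apply, sub_eq_add_neg]

lemma SP12 (φ : ℂ → ℂ) (x : m → ℂ) (y : n → ℂ) (z : ℂ) :
    (SP φ x y z).toBlocks₁₂ = φ z • vecMulVec x (star y) := by
  ext i j
  simp [SP, toBlocks₁₂, NV, bv, vecMulVec_apply, Matrix.one_apply]

lemma SP21 (φ : ℂ → ℂ) (x : m → ℂ) (y : n → ℂ) (z : ℂ) :
    (SP φ x y z).toBlocks₂₁ = -(φ z • vecMulVec y (star x)) := by
  ext i j
  simp [SP, toBlocks₂₁, NV, bv, vecMulVec_apply, Matrix.one_apply]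

lemma SP22 (φ : ℂ → ℂ) (x : m → ℂ) (y : n → ℂ) (z : ℂ) :
    (SP φ x y z).toBlocks₂₂ = 1 + φ z • vecMulVec y (star y) := by
  ext i j
  simp [SP, toBlocks₂₂, NV, bv, vecMulVec_apply, Matrix.one_apply]

/-- the inverse of `1 - κ u y*` -/
noncomputable def Einv (κ : ℂ) (u y : n → ℂ) : Matrix n n ℂ :=
  1 + (κ / (1 - κ * (star y ⬝ᵥ u))) • vecMulVec u (star y)

lemma Einv_mul {κ : ℂ} {u y : n → ℂ} (h : 1 - κ * (star y ⬝ᵥ u) ≠ 0) :
    Einv κ u y * (1 - κ • vecMulVec u (star y)) = 1 := by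
  unfold Einv
  rw [Matrix.add_mul, Matrix.one_mul, Matrix.mul_sub, Matrix.mul_one, Matrix.smul_mul,
    Matrix.mul_smul, Matrix.mul_vecMulVec, vv_vec, smul_vecMulVec, smul_smul, smul_smul]
  rw [← sub_smul, sub_add_eq_add_sub, add_sub_assoc, ← sub_smul]
  have : (κ / (1 - κ * (star y ⬝ᵥ u)) - κ / (1 - κ * (star y ⬝ᵥ u)) * κ *
      (star y ⬝ᵥ u) - κ) = 0 := by
    field_simp
    ring
  rw [this, zero_smul, add_zero]

/-- **Singular Clark measures.** -/
theorem clark {g : ℂ → Matrix n m ℂ} {x : m → ℂ} {y : n → ℂ} (hx : nsq x = 1) (hy : nsq y = 1)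
    (hg : IsSchur g) {φ : ℂ → ℂ} (hφd : DifferentiableOn ℂ φ disc)
    (hφre : ∀ z ∈ disc, 0 ≤ (φ z).re) (hφb : ∀ᵐ ζ ∂σ, ∃ L, HasBdryValue φ ζ L ∧ L.re = 0)
    (hdom : ∀ z ∈ disc, 1 / 2 + (φ z).re ≤ ((star y ⬝ᵥ (g z *ᵥ x + y))⁻¹).re) :
    ∃ g' : ℂ → Matrix n m ℂ, IsSchur g' ∧
      ∀ z ∈ disc, (g' z * (SP φ x y z).toBlocks₁₂ + (SP φ x y z).toBlocks₂₂) * g z
        = g' z * (SP φ x y z).toBlocks₁₁ + (SP φ x y z).toBlocks₂₁ := by
  set u : ℂ → n → ℂ := fun z => g z *ᵥ x + y with hu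
  set t : ℂ → ℂ := fun z => star y ⬝ᵥ u z with ht
  have hga : ∀ z ∈ disc, AnalyticPt g z := analyticPt_iff.1 hg.1
  have hgc : ∀ z ∈ disc, ∀ v, nsq (g z *ᵥ v) ≤ nsq v := fun z hz => (one_sub_iff _).1 (hg.2 z hz)
  have hgb : ∀ z ∈ disc, ∀ i j, ‖g z i j‖ ≤ 1 := fun z hz i j => entry_le_one (hgc z hz) i j
  have hua : ∀ z ∈ disc, ∀ i, AnalyticAt ℂ (fun z => u z i) z := by
    intro z hz i
    simp only [hu, Pi.add_apply, mulVec, dotProduct]
    refine AnalyticAt.add (Finset.analyticAt_fun_sum _ fun j _ => ?_) analyticAt_const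
    exact (hga z hz i j).mul analyticAt_const
  have hφa : ∀ z ∈ disc, AnalyticAt ℂ φ z := fun z hz =>
    hφd.analyticAt (isOpen_ball.mem_nhds hz)
  have hta : ∀ z ∈ disc, AnalyticAt ℂ t z := by
    intro z hz
    simp only [ht, dotProduct]
    exact Finset.analyticAt_fun_sum _ fun j _ => analyticAt_const.mul (hua z hz j)
  have hgx1 : ∀ z ∈ disc, nsq (g z *ᵥ x) ≤ 1 := fun z hz => hx ▸ hgc z hz x
  have hgx2 : ∀ z ∈ disc, ∀ i, ‖(g z *ᵥ x) i‖ ≤ 1 := by
    intro z hz i
    have h1 := (norm_sq_le_nsq (g z *ᵥ x) i).trans (hgx1 z hz)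
    nlinarith [norm_nonneg ((g z *ᵥ x) i)]
  have hyi : ∀ i, ‖y i‖ ≤ 1 := by
    intro i
    have h1 := norm_sq_le_nsq y i
    rw [hy] at h1
    nlinarith [norm_nonneg (y i)]
  have hui : ∀ z ∈ disc, ∀ i, ‖u z i‖ ≤ 2 := by
    intro z hz i
    simp only [hu, Pi.add_apply]
    refine (norm_add_le _ _).trans ?_
    linarith [hgx2 z hz i, hyi i]
  have hyy : star y ⬝ᵥ y = 1 := by rw [star_dot_self, hy]; simp
  have htb : ∀ z ∈ disc, ‖t z‖ ≤ 2 := by
    intro z hz
    have h1 : t z = star y ⬝ᵥ (g z *ᵥ x) + 1 := by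
      simp only [ht, hu]
      rw [dotProduct_add, hyy]
    have h2 := cs y (g z *ᵥ x)
    have h3 : ‖star y ⬝ᵥ (g z *ᵥ x)‖ ≤ 1 := by
      rw [hy, one_mul] at h2
      have := h2.trans (hgx1 z hz)
      nlinarith [norm_nonneg (star y ⬝ᵥ (g z *ᵥ x))]
    rw [h1]
    refine (norm_add_le _ _).trans ?_
    rw [norm_one]
    linarith
  have htne : ∀ z ∈ disc, t z ≠ 0 := by
    intro z hz h
    have h1 := hdom z hz
    have h2 := hφre z hz
    change 1 / 2 + (φ z).re ≤ ((t z)⁻¹).re at h1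
    rw [h, _root_.inv_zero, Complex.zero_re] at h1
    linarith
  have htre : ∀ z ∈ disc, 0 < (t z).re := by
    intro z hz
    have h1 := hdom z hz
    have h2 := hφre z hz
    change 1 / 2 + (φ z).re ≤ ((t z)⁻¹).re at h1
    rw [Complex.inv_re] at h1
    have h3 : 0 < (t z).re / Complex.normSq (t z) := by linarith
    exact (div_pos_iff_of_pos_right (Complex.normSq_pos.2 (htne z hz))).1 h3
  have htd : DifferentiableOn ℂ t disc := fun z hz =>
    (hta z hz).differentiableAt.differentiableWithinAt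
  have htm : Maj (fun z => (t z)⁻¹) := H64Julia.maj_inv_of_re_pos htd htre htb
  have hφm : Maj φ := maj_herglotz hφd hφre
  -- `F = t⁻¹ - φ` has real part at least `1/2`
  have hFre : ∀ z ∈ disc, 1 / 2 ≤ ((t z)⁻¹ - φ z).re := by
    intro z hz
    have h1 := hdom z hz
    change 1 / 2 + (φ z).re ≤ ((t z)⁻¹).re at h1
    rw [Complex.sub_re]
    linarith
  have hFne : ∀ z ∈ disc, (t z)⁻¹ - φ z ≠ 0 := by
    intro z hz h
    have := hFre z hz
    rw [h, Complex.zero_re] at this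
    norm_num at this
  have hFb : ∀ z ∈ disc, ‖((t z)⁻¹ - φ z)⁻¹‖ ≤ 2 := by
    intro z hz
    have h1 := (hFre z hz).trans (Complex.re_le_norm _)
    rw [norm_inv]
    rw [inv_le_comm₀ (by linarith) (by norm_num)]
    linarith
  have hdne : ∀ z ∈ disc, 1 - φ z * t z ≠ 0 := by
    intro z hz h
    apply hFne z hz
    have h1 := htne z hz
    field_simp
    rw [mul_comm] at h
    linear_combination h
  have hq : ∀ z ∈ disc, φ z / (1 - φ z * t z) = φ z * ((t z)⁻¹ * ((t z)⁻¹ - φ z)⁻¹) := by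
    intro z hz
    have h1 := htne z hz
    have h2 := hdne z hz
    have h3 := hFne z hz
    have h4 : (t z)⁻¹ - φ z = (1 - φ z * t z) / t z := by field_simp
    rw [h4]
    field_simp
  have hqm : Maj (fun z => φ z / (1 - φ z * t z)) :=
    (hφm.mul (htm.mul (Maj.of_bound hFb))).congr hq
  have hqa : ∀ z ∈ disc, AnalyticAt ℂ (fun z => φ z / (1 - φ z * t z)) z := fun z hz =>
    (hφa z hz).div (analyticAt_const.sub ((hφa z hz).mul (hta z hz))) (hdne z hz)
  set E : ℂ → Matrix n n ℂ := fun z => Einv (φ z) (u z) y with hE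
  set F : ℂ → Matrix n m ℂ := fun z => g z + φ z • vecMulVec (u z) (star x) with hF
  have hEa : ∀ z ∈ disc, AnalyticPt E z := by
    intro z hz i j
    have h5 : AnalyticAt ℂ (fun z => (1 : Matrix n n ℂ) i j + (φ z / (1 - φ z * t z)) *
        (u z i * star (y j))) z :=
      analyticAt_const.add ((hqa z hz).mul ((hua z hz i).mul analyticAt_const))
    exact h5
  have hFa : ∀ z ∈ disc, AnalyticPt F z := by
    intro z hz i j
    have h5 : AnalyticAt ℂ (fun z => g z i j + φ z * (u z i * star (x j))) z :=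
      (hga z hz i j).add ((hφa z hz).mul ((hua z hz i).mul analyticAt_const))
    exact h5
  have hum : ∀ i, Maj (fun z => u z i) := fun i => Maj.of_bound fun z hz => hui z hz i
  have hEm : MajM E := by
    intro i j
    have h5 : Maj (fun z => (1 : Matrix n n ℂ) i j + (φ z / (1 - φ z * t z)) *
        (u z i * star (y j))) :=
      (Maj.const _).add (hqm.mul ((hum i).mul (Maj.const _)))
    exact h5
  have hFm : MajM F := by
    intro i j
    have h5 : Maj (fun z => g z i j + φ z * (u z i * star (x j))) :=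
      (Maj.of_bound fun z hz => hgb z hz i j).add (hφm.mul ((hum i).mul (Maj.const _)))
    exact h5
  set g' : ℂ → Matrix n m ℂ := fun z => E z * F z with hg'
  have hg'a : ∀ z ∈ disc, AnalyticPt g' z := fun z hz => (hEa z hz).mul (hFa z hz)
  have hg'm : MajM g' := hEm.mul hFm
  have hEe : ∀ z ∈ disc, E z * (1 - φ z • vecMulVec (g z *ᵥ x + y) (star y)) = 1 :=
    fun z hz => Einv_mul (hdne z hz)
  refine ⟨g', ⟨analyticPt_iff.2 hg'a, ?_⟩, ?_⟩
  · have hGbd : ∀ᵐ ζ ∂σ, ∃ Γ, HasBdryValue g ζ Γ := by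
      have h1 : ∀ p : n × m, ∀ᵐ ζ ∂σ, ∃ L, HasBdryValue (fun z => g z p.1 p.2) ζ L :=
        fun p => fatou (hg.1 p.1 p.2) (fun z hz => entry_le_one (hgc z hz) p.1 p.2)
      filter_upwards [ae_all_iff.2 h1] with ζ hζ
      choose L hL using hζ
      exact ⟨Matrix.of fun i j => L (i, j), tendsto_entries.2 fun i j => hL (i, j)⟩
    set A : ℂ → Matrix (m ⊕ n) (m ⊕ n) ℂ := fun z => fromBlocks 0 0 (g' z) 0 with hA
    have hAa : ∀ z ∈ disc, AnalyticPt A z := by
      intro z hz i j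
      rcases i with i | i <;> rcases j with j | j
      · exact analyticAt_const
      · exact analyticAt_const
      · exact hg'a z hz i j
      · exact analyticAt_const
    have hAm : MajM A := by
      intro i j
      rcases i with i | i <;> rcases j with j | j
      · exact Maj.const _
      · exact Maj.const _
      · exact hg'm i j
      · exact Maj.const _
    have hAv : ∀ (B : Matrix n m ℂ) (x : m → ℂ) (y : n → ℂ),
        (fromBlocks 0 0 B 0 : Matrix (m ⊕ n) (m ⊕ n) ℂ) *ᵥ (Sum.elim x y)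
          = Sum.elim (0 : m → ℂ) (B *ᵥ x) := by
      intro B x y
      rw [fromBlocks_mulVec]
      simp
    have hAc : ∀ z ∈ disc, ∀ v, nsq (A z *ᵥ v) ≤ nsq v := by
      apply maj_bounded_form hAa hAm
      filter_upwards [hGbd, hφb, ae_norm] with ζ hζ h1 hn
      obtain ⟨Γ, hΓ⟩ := hζ
      obtain ⟨L, hL, hL0⟩ := h1
      have hΓc : ∀ v, nsq (Γ *ᵥ v) ≤ nsq v := by
        intro v
        apply le_of_tendsto (tendsto_nsq hΓ v)
        filter_upwards [eventually_r] with r hr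
        exact hgc _ (dil_mem hr hn) v
      set u0 : n → ℂ := Γ *ᵥ x + y with hu0
      have hu1 : Tendsto (fun r : ℝ => u (r * ζ)) (𝓝[<] 1) (𝓝 u0) := by
        have hcc : Continuous fun B : Matrix n m ℂ => B *ᵥ x + y := by fun_prop
        exact (hcc.tendsto Γ).comp hΓ
      have ht1 : Tendsto (fun r : ℝ => t (r * ζ)) (𝓝[<] 1) (𝓝 (star y ⬝ᵥ u0)) := by
        have hcc : Continuous fun w : n → ℂ => star y ⬝ᵥ w := by fun_prop
        exact (hcc.tendsto u0).comp hu1
      have hd2 : (1 : ℂ) - L * (star y ⬝ᵥ u0) ≠ 0 := by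
        intro h0
        by_cases h2 : star y ⬝ᵥ u0 = 0
        · rw [h2, mul_zero, sub_zero] at h0
          exact one_ne_zero h0
        · have h3 : Tendsto (fun r : ℝ => ((t (r * ζ))⁻¹).re - (φ (r * ζ)).re) (𝓝[<] 1)
              (𝓝 (((star y ⬝ᵥ u0)⁻¹).re - L.re)) :=
            ((Complex.continuous_re.tendsto _).comp (ht1.inv₀ h2)).sub
              ((Complex.continuous_re.tendsto _).comp hL)
          have h4 : 1 / 2 ≤ ((star y ⬝ᵥ u0)⁻¹).re - L.re := by
            apply ge_of_tendsto h3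
            filter_upwards [eventually_r] with r hr
            have := hFre _ (dil_mem hr hn)
            rw [Complex.sub_re] at this
            exact this
          have h5 : (star y ⬝ᵥ u0)⁻¹ = L := by
            rw [inv_eq_iff_eq_inv]
            have h6 : L ≠ 0 := by
              rintro rfl
              rw [zero_mul, sub_zero] at h0
              exact one_ne_zero h0
            field_simp
            linear_combination -h0
          rw [h5, sub_self] at h4
          norm_num at h4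
      have hE1 : Tendsto (fun r : ℝ => E (r * ζ)) (𝓝[<] 1) (𝓝 (Einv L u0 y)) := by
        have h2 : Tendsto (fun r : ℝ => φ (r * ζ) / (1 - φ (r * ζ) * (star y ⬝ᵥ u (r * ζ))))
            (𝓝[<] 1) (𝓝 (L / (1 - L * (star y ⬝ᵥ u0)))) :=
          Tendsto.div hL (tendsto_const_nhds.sub (Tendsto.mul hL ht1)) hd2
        have hcc : Continuous fun w : n → ℂ => vecMulVec w (star y) := by
          refine continuous_matrix fun i j => ?_
          simp only [vecMulVec_apply]
          fun_prop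
        have h3 := (hcc.tendsto u0).comp hu1
        exact tendsto_const_nhds.add (h2.smul h3)
      have hF1 : Tendsto (fun r : ℝ => F (r * ζ)) (𝓝[<] 1)
          (𝓝 (Γ + L • vecMulVec u0 (star x))) := by
        have hcc : Continuous fun w : n → ℂ => vecMulVec w (star x) := by
          refine continuous_matrix fun i j => ?_
          simp only [vecMulVec_apply]
          fun_prop
        have h3 := (hcc.tendsto u0).comp hu1
        exact Tendsto.add hΓ (Tendsto.smul hL h3)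
      have hg1 : Tendsto (fun r : ℝ => g' (r * ζ)) (𝓝[<] 1)
          (𝓝 (Einv L u0 y * (Γ + L • vecMulVec u0 (star x)))) := tendsto_mmul hE1 hF1
      have hA1 : HasBdryValue A ζ
          (fromBlocks 0 0 (Einv L u0 y * (Γ + L • vecMulVec u0 (star x))) 0) := by
        refine tendsto_entries.2 fun i j => ?_
        rcases i with i | i <;> rcases j with j | j
        · exact tendsto_const_nhds
        · exact tendsto_const_nhds
        · exact tendsto_entries.1 hg1 i j
        · exact tendsto_const_nhds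
      refine ⟨_, hA1, fun v => ?_⟩
      have hv : v = Sum.elim (v ∘ Sum.inl) (v ∘ Sum.inr) := (Sum.elim_comp_inl_inr v).symm
      rw [hv, hAv, nsq_elim, nsq_elim, nsq_zero, zero_add]
      have h6 := contact_bdry hΓc hx hy hL0 (Einv_mul hd2) (v ∘ Sum.inl)
      linarith [nsq_nonneg (v ∘ Sum.inr)]
    intro z hz
    refine (one_sub_iff _).2 fun v => ?_
    have h1 := hAc z hz (Sum.elim v 0)
    simp only [hA] at h1
    rw [hAv, nsq_elim, nsq_elim, nsq_zero, nsq_zero, zero_add, add_zero] at h1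
    exact h1
  · intro z hz
    rw [SP11, SP12, SP21, SP22]
    obtain ⟨k1, k2⟩ := contact_alg hx hy (φ z) (hEe z hz)
    simp only [hg']
    have hFe : F z = g z + φ z • vecMulVec (g z *ᵥ x + y) (star x) := rfl
    rw [hFe, k1, k2]

/-- **Left regularity excludes singular Clark measures.** Let `‖x‖ = ‖y‖ = 1` and
`γ = y* g x`. If some non-constant holomorphic `φ` with `Re φ ≥ 0` in the disc and `Re φ = 0` a.e.
on the circle satisfies `1/2 + Re φ ≤ Re (1 - γ)⁻¹`, that is `2 Re φ ≤ Re ((1 + γ)/(1 - γ))`, then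
`g` is not `κ_W` of a left regular `W`. -/
theorem no_clark {g : ℂ → Matrix n m ℂ} {x : m → ℂ} {y : n → ℂ} (hx : nsq x = 1)
    (hy : nsq y = 1) {φ : ℂ → ℂ} (hφd : DifferentiableOn ℂ φ disc)
    (hφre : ∀ z ∈ disc, 0 ≤ (φ z).re)
    (hφb : ∀ᵐ ζ ∂circleMeasure, ∃ L, HasBdryValue φ ζ L ∧ L.re = 0)
    (hφc : ¬ ∃ c, ∀ z ∈ disc, φ z = c)
    (hdom : ∀ z ∈ disc, 1 / 2 + (φ z).re ≤ ((1 - star y ⬝ᵥ (g z *ᵥ x))⁻¹).re) :
    ¬ ∃ W : ℂ → Matrix (m ⊕ n) (m ⊕ n) ℂ, LeftRegular W ∧ IsKappa W g := by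
  intro h
  have hg : IsSchur g := by
    obtain ⟨W, hW, hWg⟩ := h
    exact schur_of_kappa hW.jInner hWg
  have hy' : nsq (-y) = 1 := by rw [nsq_neg, hy]
  have hyy : star y ⬝ᵥ y = 1 := by rw [star_dot_self, hy]; simp
  obtain ⟨g', hg', hgg⟩ := clark (g := g) hx hy' hg hφd hφre hφb (by
    intro z hz
    have h1 := hdom z hz
    have h2 : star (-y) ⬝ᵥ (g z *ᵥ x + -y) = 1 - star y ⬝ᵥ (g z *ᵥ x) := by
      rw [star_neg, neg_dotProduct, dotProduct_add, dotProduct_neg, hyy]
      ring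
    rw [h2]
    exact h1)
  have hx0 : x ≠ 0 := by
    rintro rfl
    rw [nsq_zero] at hx
    exact zero_ne_one hx
  exact not_const_SP hφc hx0 (((kappa_lr_iff g).1 h).2 _
    (aSingular_SP hφd hφre hφb (hx.trans hy'.symm)) ⟨g', hg', hgg⟩)

end Pool.Agent.H99K
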