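import Pool.Agent.H99K.Clark

/-!
# The form with `(1 + γ)/(1 - γ)`
-/

open Filter Topology Complex MeasureTheory Set Metric Matrix
open scoped Real ENNReal NNReal ComplexOrder

namespace Pool.Agent.H99K

open Pool.Agent.RegJ Pool.Agent.RegK Pool.Agent.H2RJ

set_option linter.unusedSectionVars false

variable {m n : Type*} [Fintype m] [DecidableEq m] [Fintype n] [DecidableEq n]

/-- A holomorphic function with nonnegative real part which has a zero of the real part is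
constant. -/
lemma re_pos_of_not_const {φ : ℂ → ℂ} (hd : DifferentiableOn ℂ φ disc)
    (hre : ∀ z ∈ disc, 0 ≤ (φ z).re) (hc : ¬ ∃ c, ∀ z ∈ disc, φ z = c) :
    ∀ z ∈ disc, 0 < (φ z).re := by
  intro z₀ hz₀
  refine lt_of_le_of_ne (hre z₀ hz₀) fun h0 => hc ?_
  have hconn : IsPreconnected disc := (convex_ball (0 : ℂ) 1).isPreconnected
  have hana : AnalyticOnNhd ℂ φ disc := hd.analyticOnNhd isOpen_ball
  rcases hana.is_constant_or_isOpen hconn with h1 | h1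
  · obtain ⟨w, hw⟩ := h1
    exact ⟨w, hw⟩
  · exfalso
    have h2 := h1 disc subset_rfl isOpen_ball
    have h3 : φ z₀ ∈ φ '' disc := ⟨z₀, hz₀, rfl⟩
    obtain ⟨ε, hε, hb⟩ := Metric.isOpen_iff.1 h2 _ h3
    have h4 : φ z₀ - ((ε / 2 : ℝ) : ℂ) ∈ ball (φ z₀) ε := by
      rw [mem_ball, dist_eq_norm]
      have : φ z₀ - ((ε / 2 : ℝ) : ℂ) - φ z₀ = -((ε / 2 : ℝ) : ℂ) := by ring
      rw [this, norm_neg, Complex.norm_real, Real.norm_eq_abs, abs_of_pos (by linarith)]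
      linarith
    obtain ⟨z, hz, hzz⟩ := hb h4
    have h5 := hre z hz
    rw [hzz, Complex.sub_re, Complex.ofReal_re] at h5
    linarith

/-- **Left regularity excludes singular Clark measures.** -/
theorem clark_scalar {g : ℂ → Matrix n m ℂ} {x : m → ℂ} {y : n → ℂ} (hx : nsq x = 1)
    (hy : nsq y = 1) {s : ℂ → ℂ} (hsd : DifferentiableOn ℂ s disc)
    (hs0 : ∀ z ∈ disc, 0 ≤ (s z).re)
    (hsb : ∀ᵐ ζ ∂circleMeasure, ∃ L, HasBdryValue s ζ L ∧ L.re = 0)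
    (hsc : ¬ ∃ c, ∀ z ∈ disc, s z = c)
    (h : ∀ z ∈ disc, 2 * (s z).re ≤
      ((1 + star y ⬝ᵥ (g z *ᵥ x)) / (1 - star y ⬝ᵥ (g z *ᵥ x))).re) :
    ¬ ∃ W : ℂ → Matrix (m ⊕ n) (m ⊕ n) ℂ, LeftRegular W ∧ IsKappa W g := by
  refine no_clark hx hy hsd hs0 hsb hsc fun z hz => ?_
  have h1 := h z hz
  have h2 := re_pos_of_not_const hsd hs0 hsc z hz
  have h3 : (1 : ℂ) - star y ⬝ᵥ (g z *ᵥ x) ≠ 0 := by
    intro h0
    rw [h0, div_zero, Complex.zero_re] at h1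
    linarith
  have h4 : (1 + star y ⬝ᵥ (g z *ᵥ x)) / (1 - star y ⬝ᵥ (g z *ᵥ x))
      = 2 * (1 - star y ⬝ᵥ (g z *ᵥ x))⁻¹ - 1 := by
    field_simp
    ring
  have h5 : (2 * (1 - star y ⬝ᵥ (g z *ᵥ x))⁻¹ - 1 : ℂ).re
      = 2 * ((1 - star y ⬝ᵥ (g z *ᵥ x))⁻¹).re - 1 := by simp
  rw [h4, h5] at h1
  linarith

end Pool.Agent.H99K
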