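import Pool.Agent.H99K.Strict
import Pool.Agent.RegK.Arov

/-!
# Left regularity from integrability of `(1 - ‖κ_W‖²)⁻¹`
-/

open Filter Topology Complex MeasureTheory Set Metric Matrix
open scoped Real ENNReal NNReal ComplexOrder

namespace Pool.Agent.H99K

open Pool.Agent.RegJ Pool.Agent.RegK Pool.Agent.H2RJ

set_option linter.unusedSectionVars false

variable {m n : Type*} [Fintype m] [DecidableEq m] [Fintype n] [DecidableEq n]

/-- `k (1 - L* L) ≥ 1` in terms of vectors -/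
lemma posSemidef_vec {L : Matrix n m ℂ} {k : ℝ}
    (h : ((k : ℂ) • (1 - Lᴴ * L) - 1).PosSemidef) (y : m → ℂ) :
    nsq y ≤ k * (nsq y - nsq (L *ᵥ y)) := by
  have h1 := ((posSemidef_iff_dotProduct_mulVec).1 h).2 y
  have key : star y ⬝ᵥ (((k : ℂ) • (1 - Lᴴ * L) - 1) *ᵥ y)
      = ((k * (nsq y - nsq (L *ᵥ y)) - nsq y : ℝ) : ℂ) := by
    rw [sub_mulVec, smul_mulVec, sub_mulVec, one_mulVec, dotProduct_sub, dotProduct_smul,
      dotProduct_sub, ← mulVec_mulVec, star_dot_conj, star_dot_self, star_dot_self, smul_eq_mul]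
    push_cast
    rfl
  rw [key] at h1
  have h2 := (Complex.zero_le_real).1 h1
  linarith

/-- If `(1 - ‖κ_W‖²)⁻¹` is integrable on the circle, then `W` is left regular. -/
theorem leftRegular_of_L1 {W : ℂ → Matrix (m ⊕ n) (m ⊕ n) ℂ} (hW : JInner W)
    {g : ℂ → Matrix n m ℂ} (hg : IsKappa W g) {k : ℂ → ℝ} (hk : Integrable k circleMeasure)
    (hkg : ∀ᵐ ζ ∂circleMeasure, ∃ L, HasBdryValue g ζ L ∧
      ((k ζ : ℂ) • (1 - Lᴴ * L) - 1).PosSemidef) : LeftRegular W := by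
  have hs : IsSchur g := ((kappa_arov g).1 ⟨W, hW, hg⟩).1
  refine ⟨hW, fun S hS hD => ?_⟩
  obtain ⟨g', hg', hid⟩ := (div_iff hW hS hg).1 hD
  refine const_of_L1 hS (fun z hz => (one_sub_iff _).1 (hs.2 z hz)) hg' hid hk ?_
  filter_upwards [hkg] with ζ hζ
  obtain ⟨L, hL, hp⟩ := hζ
  exact ⟨L, hL, posSemidef_vec hp⟩

/-- A function of Arov's class with `(1 - ‖g‖²)⁻¹` integrable on the circle is `κ_W` for a left
regular `W`. -/
theorem exists_leftRegular_of_L1 {g : ℂ → Matrix n m ℂ} (h1 : IsSchur g)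
    (h2 : HasPseudocontinuation g) (h3 : LogDetIntegrable g) {k : ℂ → ℝ}
    (hk : Integrable k circleMeasure)
    (hkg : ∀ᵐ ζ ∂circleMeasure, ∃ L, HasBdryValue g ζ L ∧
      ((k ζ : ℂ) • (1 - Lᴴ * L) - 1).PosSemidef) :
    ∃ W : ℂ → Matrix (m ⊕ n) (m ⊕ n) ℂ, LeftRegular W ∧ IsKappa W g := by
  obtain ⟨W, hW, hg⟩ := (kappa_arov g).2 ⟨h1, h2, h3⟩
  exact ⟨W, leftRegular_of_L1 hW hg hk hkg, hg⟩

/-- If `sup ‖κ_W‖ < 1`, then `W` is left regular. -/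
theorem leftRegular_of_strict {W : ℂ → Matrix (m ⊕ n) (m ⊕ n) ℂ} (hW : JInner W)
    {g : ℂ → Matrix n m ℂ} (hg : IsKappa W g) {ρ : ℝ} (hρ0 : 0 ≤ ρ) (hρ : ρ < 1)
    (hgρ : ∀ z ∈ disc, ∀ y, nsq (g z *ᵥ y) ≤ ρ ^ 2 * nsq y) : LeftRegular W := by
  refine ⟨hW, fun S hS hD => ?_⟩
  obtain ⟨g', hg', hid⟩ := (div_iff hW hS hg).1 hD
  exact const_of_strict hS hg.1 hg' hρ0 hρ hgρ hid

end Pool.Agent.H99K
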