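import Pool.Agent.H2RJ.Contact
import Pool.Agent.H64Julia.PoleA

/-!
# Elementary A-singular functions with an arbitrary singular Herglotz function
-/

open Filter Topology Complex MeasureTheory Set Metric Matrix
open scoped Real ENNReal NNReal ComplexOrder

namespace Pool.Agent.H99K

open Pool.Agent.RegJ Pool.Agent.RegK Pool.Agent.H2RJ

set_option linter.unusedSectionVars false

variable {m n : Type*} [Fintype m] [DecidableEq m] [Fintype n] [DecidableEq n]

/-- the bounded function `(φ + 1)⁻¹` -/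
lemma herglotz_aux {φ : ℂ → ℂ} (hd : DifferentiableOn ℂ φ disc)
    (hre : ∀ z ∈ disc, 0 ≤ (φ z).re) :
    (∀ z ∈ disc, φ z + 1 ≠ 0) ∧ DifferentiableOn ℂ (fun z => (φ z + 1)⁻¹) disc ∧
      (∀ z ∈ disc, 0 < ((φ z + 1)⁻¹).re) ∧ ∀ z ∈ disc, ‖(φ z + 1)⁻¹‖ ≤ 1 := by
  have h1 : ∀ z ∈ disc, 1 ≤ (φ z + 1).re := fun z hz => by
    rw [Complex.add_re, Complex.one_re]
    linarith [hre z hz]
  have hne : ∀ z ∈ disc, φ z + 1 ≠ 0 := fun z hz h => by
    have := h1 z hz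
    rw [h, Complex.zero_re] at this
    linarith
  refine ⟨hne, (hd.add_const _).inv hne, fun z hz => ?_, fun z hz => ?_⟩
  · rw [Complex.inv_re]
    exact div_pos (by linarith [h1 z hz]) (Complex.normSq_pos.2 (hne z hz))
  · rw [norm_inv]
    exact inv_le_one_of_one_le₀ ((h1 z hz).trans (Complex.re_le_norm _))

lemma maj_herglotz {φ : ℂ → ℂ} (hd : DifferentiableOn ℂ φ disc)
    (hre : ∀ z ∈ disc, 0 ≤ (φ z).re) : Maj φ := by
  obtain ⟨hne, hfd, hfre, hfb⟩ := herglotz_aux hd hre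
  have h1 := H64Julia.maj_inv_of_re_pos hfd hfre hfb
  refine (h1.add (Maj.const (-1))).congr fun z _ => ?_
  rw [inv_inv]
  ring

/-- Functions with nonnegative real part are in the Smirnov class. -/
theorem smirnov_herglotz {φ : ℂ → ℂ} (hd : DifferentiableOn ℂ φ disc)
    (hre : ∀ z ∈ disc, 0 ≤ (φ z).re) (α β : ℂ) : Smirnov (fun z => α + β * φ z) := by
  obtain ⟨hne, hfd, hfre, hfb⟩ := herglotz_aux hd hre
  refine H64Julia.smirnov_of_maj (a := fun z => (α - β) * (φ z + 1)⁻¹ + β)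
    (b := fun z => (φ z + 1)⁻¹) (C := ‖α - β‖ + ‖β‖ + 1) ((hd.const_mul _).const_add _)
    ((Maj.const α).add ((Maj.const β).mul (maj_herglotz hd hre)))
    ((hfd.const_mul _).add_const _) hfd (fun z hz => ⟨?_, ?_⟩)
    ⟨0, by simp, inv_ne_zero (hne 0 (by simp))⟩ fun z hz => ?_
  · refine (norm_add_le _ _).trans ?_
    rw [norm_mul]
    have := mul_le_mul_of_nonneg_left (hfb z hz) (norm_nonneg (α - β))
    linarith
  · have := hfb z hz
    have := norm_nonneg (α - β)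
    have := norm_nonneg β
    linarith
  · have := hne z hz
    field_simp
    ring

/-- the elementary A-singular function with the singular Herglotz function `φ` -/
noncomputable def SP (φ : ℂ → ℂ) (x : m → ℂ) (y : n → ℂ) (z : ℂ) :
    Matrix (m ⊕ n) (m ⊕ n) ℂ := 1 + (-φ z) • NV x y

lemma SP_inv {x : m → ℂ} {y : n → ℂ} (h : nsq x = nsq y) (φ : ℂ → ℂ) (z : ℂ) :
    (SP φ x y z)⁻¹ = 1 + φ z • NV x y :=
  inv_eq_right_inv (SV_mul h (φ z))

lemma jInner_SP {φ : ℂ → ℂ} (hd : DifferentiableOn ℂ φ disc)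
    (hre : ∀ z ∈ disc, 0 ≤ (φ z).re)
    (hb : ∀ᵐ ζ ∂σ, ∃ L, HasBdryValue φ ζ L ∧ L.re = 0) {x : m → ℂ} {y : n → ℂ}
    (h : nsq x = nsq y) : JInner (SP φ x y) := by
  obtain ⟨hne, hfd, hfre, hfb⟩ := herglotz_aux hd hre
  have han : ∀ z ∈ disc, AnalyticPt (SP φ x y) z := by
    refine analyticPt_iff.1 fun a b => ?_
    simp only [SP, Matrix.add_apply, Matrix.smul_apply, smul_eq_mul]
    exact (hd.neg.mul_const _).const_add _
  constructor
  · refine ⟨fun z => (φ z + 1)⁻¹, fun z => (φ z + 1)⁻¹ • (1 : Matrix (m ⊕ n) (m ⊕ n) ℂ)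
      + (-(1 - (φ z + 1)⁻¹)) • NV x y,
      1 + ∑ a, ∑ b, (‖(1 : Matrix (m ⊕ n) (m ⊕ n) ℂ) a b‖ + 2 * ‖NV x y a b‖),
      hfd, ?_, ?_, ⟨0, by simp, inv_ne_zero (hne 0 (by simp))⟩, ?_⟩
    · intro a b
      simp only [Matrix.add_apply, Matrix.smul_apply, smul_eq_mul]
      exact (hfd.mul_const _).add ((hfd.const_sub _).neg.mul_const _)
    · intro z hz
      have hnn : ∀ a b, 0 ≤ ‖(1 : Matrix (m ⊕ n) (m ⊕ n) ℂ) a b‖ + 2 * ‖NV x y a b‖ :=
        fun a b => by positivity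
      have h2 : ‖-(1 - (φ z + 1)⁻¹)‖ ≤ 2 := by
        rw [norm_neg]
        have := norm_sub_le (1 : ℂ) ((φ z + 1)⁻¹)
        rw [norm_one] at this
        linarith [hfb z hz]
      constructor
      · have : 0 ≤ ∑ a, ∑ b, (‖(1 : Matrix (m ⊕ n) (m ⊕ n) ℂ) a b‖ + 2 * ‖NV x y a b‖) :=
          Finset.sum_nonneg fun a _ => Finset.sum_nonneg fun b _ => hnn a b
        linarith [hfb z hz]
      · intro a b
        simp only [Matrix.add_apply, Matrix.smul_apply, smul_eq_mul]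
        have h3 : ‖(φ z + 1)⁻¹ * (1 : Matrix (m ⊕ n) (m ⊕ n) ℂ) a b
            + -(1 - (φ z + 1)⁻¹) * NV x y a b‖
            ≤ ‖(1 : Matrix (m ⊕ n) (m ⊕ n) ℂ) a b‖ + 2 * ‖NV x y a b‖ := by
          refine (norm_add_le _ _).trans ?_
          rw [norm_mul, norm_mul]
          have e1 := mul_le_mul_of_nonneg_right (hfb z hz)
            (norm_nonneg ((1 : Matrix (m ⊕ n) (m ⊕ n) ℂ) a b))
          have e2 := mul_le_mul_of_nonneg_right h2 (norm_nonneg (NV x y a b))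
          linarith
        have h4 : ‖(1 : Matrix (m ⊕ n) (m ⊕ n) ℂ) a b‖ + 2 * ‖NV x y a b‖
            ≤ ∑ b, (‖(1 : Matrix (m ⊕ n) (m ⊕ n) ℂ) a b‖ + 2 * ‖NV x y a b‖) :=
          Finset.single_le_sum (f := fun b => ‖(1 : Matrix (m ⊕ n) (m ⊕ n) ℂ) a b‖
            + 2 * ‖NV x y a b‖) (fun b _ => hnn a b) (Finset.mem_univ b)
        have h5 : ∑ b, (‖(1 : Matrix (m ⊕ n) (m ⊕ n) ℂ) a b‖ + 2 * ‖NV x y a b‖)
            ≤ ∑ a, ∑ b, (‖(1 : Matrix (m ⊕ n) (m ⊕ n) ℂ) a b‖ + 2 * ‖NV x y a b‖) :=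
          Finset.single_le_sum (f := fun a => ∑ b, (‖(1 : Matrix (m ⊕ n) (m ⊕ n) ℂ) a b‖
            + 2 * ‖NV x y a b‖)) (fun a _ => Finset.sum_nonneg fun b _ => hnn a b)
            (Finset.mem_univ a)
        linarith
    · intro z hz h1
      simp only at h1 ⊢
      rw [SP, smul_add, smul_smul, smul_smul, inv_mul_cancel₀ h1, one_smul]
      congr 2
      have := hne z hz
      field_simp
      ring
  · refine ⟨0, by simp, han 0 (by simp), ?_⟩
    have h := SV_mul h (φ 0)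
    have h2 := congrArg Matrix.det h
    rw [det_mul, det_one] at h2
    exact left_ne_zero_of_mul_eq_one h2
  · intro z hz _
    rw [SP, form_SV h]
    refine PosSemidef.smul (posSemidef_vecMulVec_self_star _) ?_
    have := hre z hz
    rw [Complex.zero_le_real]
    linarith
  · filter_upwards [hb] with ζ hζ
    obtain ⟨L, hL, hL0⟩ := hζ
    refine ⟨1 + (-L) • NV x y, ?_, ?_⟩
    · have h4 : Tendsto (fun r : ℝ => -φ (r * ζ)) (𝓝[<] 1) (𝓝 (-L)) := Tendsto.neg hL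
      exact tendsto_const_nhds.add (h4.smul tendsto_const_nhds)
    · have h2 := form_SV h L
      rw [hL0] at h2
      simp only [mul_zero, Complex.ofReal_zero, zero_smul] at h2
      exact (sub_eq_zero.1 h2).symm

theorem aSingular_SP {φ : ℂ → ℂ} (hd : DifferentiableOn ℂ φ disc)
    (hre : ∀ z ∈ disc, 0 ≤ (φ z).re)
    (hb : ∀ᵐ ζ ∂σ, ∃ L, HasBdryValue φ ζ L ∧ L.re = 0) {x : m → ℂ} {y : n → ℂ}
    (h : nsq x = nsq y) : ASingular (SP φ x y) := by
  refine ⟨jInner_SP hd hre hb h, fun a b => ?_, fun a b => ?_⟩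
  · have := smirnov_herglotz hd hre ((1 : Matrix (m ⊕ n) (m ⊕ n) ℂ) a b) (-(NV x y a b))
    convert this using 2 with z
    simp only [SP, Matrix.add_apply, Matrix.smul_apply, smul_eq_mul]
    ring
  · have := smirnov_herglotz hd hre ((1 : Matrix (m ⊕ n) (m ⊕ n) ℂ) a b) (NV x y a b)
    convert this using 2 with z
    rw [SP_inv h]
    simp only [Matrix.add_apply, Matrix.smul_apply, smul_eq_mul]
    ring

theorem not_const_SP {φ : ℂ → ℂ} (hc : ¬ ∃ c, ∀ z ∈ disc, φ z = c) {x : m → ℂ} {y : n → ℂ}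
    (hx : x ≠ 0) : ¬ ∃ C, ∀ z ∈ disc, SP φ x y z = C := by
  rintro ⟨C, hC⟩
  obtain ⟨i, hi⟩ : ∃ i, x i ≠ 0 := by
    by_contra hcon
    push Not at hcon
    exact hx (funext hcon)
  apply hc
  refine ⟨φ 0, fun z hz => ?_⟩
  have h2 := congrFun (congrFun ((hC z hz).trans (hC 0 (by simp)).symm) (Sum.inl i)) (Sum.inl i)
  have hN : NV x y (Sum.inl i) (Sum.inl i) = x i * star (x i) := by
    simp [NV, vecMulVec_apply, bv]
  simp only [SP, Matrix.add_apply, Matrix.smul_apply, smul_eq_mul, hN] at h2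
  have h3 : (φ z - φ 0) * (x i * star (x i)) = 0 := by linear_combination -h2
  have h4 : star (x i) ≠ 0 := star_ne_zero.2 hi
  rcases mul_eq_zero.1 h3 with h5 | h5
  · exact sub_eq_zero.1 h5
  · exact absurd h5 (mul_ne_zero hi h4)

end Pool.Agent.H99K
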