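import Pool.Agent.H2RJ.Crit

/-!
# A-singular right divisors and boundary integrability of `(1 - ‖g‖²)⁻¹`
-/

open Filter Topology Complex MeasureTheory Set Metric Matrix
open scoped Real ENNReal NNReal ComplexOrder

namespace Pool.Agent.H99K

open Pool.Agent.RegJ Pool.Agent.RegK Pool.Agent.H2RJ

set_option linter.unusedSectionVars false

variable {m n : Type*} [Fintype m] [DecidableEq m] [Fintype n] [DecidableEq n]

/-- A function with an `L¹` Poisson majorant of its positive logarithm whose boundary values are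
integrable and have nonnegative real part has nonnegative real part. -/
theorem re_nonneg_of_L1 {h : ℂ → ℂ} (hd : DifferentiableOn ℂ h disc) (hm : Maj h) {k : ℂ → ℝ}
    (hk : Integrable k σ) (hb : ∀ᵐ ζ ∂σ, ∃ L, HasBdryValue h ζ L ∧ ‖L‖ ≤ k ζ ∧ 0 ≤ L.re) :
    ∀ z ∈ disc, 0 ≤ (h z).re := by
  set κ : ℂ → ℝ := fun ζ => max (k ζ) 1 with hκ
  have hκi : Integrable κ σ := hk.sup (integrable_const 1)
  have hκ1 : ∀ ζ, 1 ≤ κ ζ := fun ζ => le_max_right _ _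
  have hbound : ∀ z ∈ disc, ‖h z‖ ≤ PI κ z := by
    intro z hz
    have hz' : ‖z‖ < 1 := by simpa using hz
    have hs1 : 1 ≤ PI κ z := by
      have := PI_mono (integrable_const 1) hκi (Eventually.of_forall hκ1) hz'
      rwa [PI_const _ hz'] at this
    set s := PI κ z with hs
    have hs0 : 0 < s := by linarith
    have h1 := maj_bound hd hm (g₀ := fun ζ => s⁻¹ * κ ζ + (Real.log s - 1))
      ((hκi.const_mul _).add (integrable_const _)) (by
        filter_upwards [hb] with ζ hζ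
        obtain ⟨L, hL, hLk, -⟩ := hζ
        refine ⟨L, hL, ?_⟩
        have h4 : Real.posLog ‖L‖ ≤ Real.log (κ ζ) := by
          have h5 : Real.posLog ‖L‖ ≤ Real.posLog (κ ζ) :=
            Real.posLog_le_posLog (norm_nonneg _) (hLk.trans (le_max_left _ _))
          refine h5.trans (le_of_eq ?_)
          rw [Real.posLog_apply, max_eq_right (Real.log_nonneg (hκ1 ζ))]
        have hκ0 : 0 < κ ζ := lt_of_lt_of_le one_pos (hκ1 ζ)
        have h5 := Real.log_le_sub_one_of_pos (x := κ ζ / s) (by positivity)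
        rw [Real.log_div hκ0.ne' hs0.ne'] at h5
        have h6 : s⁻¹ * κ ζ = κ ζ / s := by rw [div_eq_inv_mul]
        rw [h6]
        linarith) z hz
    rw [PI_add (hκi.const_mul _) (integrable_const _) hz', PI_const_mul, PI_const _ hz', ← hs,
      inv_mul_cancel₀ hs0.ne'] at h1
    have h2 : Real.posLog ‖h z‖ ≤ Real.log s := by linarith
    rcases (norm_nonneg (h z)).eq_or_lt with h0 | h0
    · rw [← h0]; exact hs0.le
    · have h3 : Real.log ‖h z‖ ≤ Real.log s :=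
        le_trans (by rw [Real.posLog_apply]; exact le_max_right _ _) h2
      exact (Real.log_le_log_iff h0 hs0).1 h3
  intro z hz
  have hed : DifferentiableOn ℂ (fun z => Complex.exp (-(h z))) disc := hd.neg.cexp
  have hem : Maj (fun z => Complex.exp (-(h z))) := by
    refine ⟨κ, hκi, fun ζ => by have := hκ1 ζ; linarith, fun w hw => ?_⟩
    have hw' : ‖w‖ < 1 := by simpa using hw
    rw [Complex.norm_exp, Real.posLog_apply, Real.log_exp]
    apply max_le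
    · exact PI_nonneg (Eventually.of_forall fun ζ => by have := hκ1 ζ; linarith) hw'
    · refine le_trans ?_ (hbound w hw)
      rw [Complex.neg_re]
      have h7 := Complex.abs_re_le_norm (h w)
      have h8 := neg_abs_le (h w).re
      linarith
  have h1 := maj_bounded hed hem (by
    filter_upwards [hb] with ζ hζ
    obtain ⟨L, hL, -, hL0⟩ := hζ
    refine ⟨Complex.exp (-L), ?_, ?_⟩
    · have hL' : Tendsto (fun r : ℝ => -(h (r * ζ))) (𝓝[<] 1) (𝓝 (-L)) := Tendsto.neg hL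
      exact (Complex.continuous_exp.tendsto _).comp hL'
    · rw [Complex.norm_exp, Complex.neg_re, Real.exp_le_one_iff]; linarith) z hz
  rw [Complex.norm_exp, Complex.neg_re, Real.exp_le_one_iff] at h1
  linarith

/-- the row identity -/
lemma row_inv {S V : Matrix (m ⊕ n) (m ⊕ n) ℂ} {g g' : Matrix n m ℂ} (hSV : S * V = 1)
    (h : (g' * S.toBlocks₁₂ + S.toBlocks₂₂) * g = g' * S.toBlocks₁₁ + S.toBlocks₂₁) :
    (g' * S.toBlocks₁₂ + S.toBlocks₂₂) * (g * V.toBlocks₁₂ + V.toBlocks₂₂) = 1 := by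
  have e12 := congrArg toBlocks₁₂ hSV
  have e22 := congrArg toBlocks₂₂ hSV
  rw [mul_blocks12, ← fromBlocks_one, toBlocks_fromBlocks₁₂] at e12
  rw [mul_blocks22, ← fromBlocks_one, toBlocks_fromBlocks₂₂] at e22
  have h1 : (g' * S.toBlocks₁₂ + S.toBlocks₂₂) * (g * V.toBlocks₁₂ + V.toBlocks₂₂)
      = g' * (S.toBlocks₁₁ * V.toBlocks₁₂ + S.toBlocks₁₂ * V.toBlocks₂₂)
        + (S.toBlocks₂₁ * V.toBlocks₁₂ + S.toBlocks₂₂ * V.toBlocks₂₂) := by
    rw [Matrix.mul_add, ← Matrix.mul_assoc, h]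
    simp only [Matrix.mul_add, Matrix.add_mul, Matrix.mul_assoc]
    abel
  rw [h1, e12, e22, Matrix.mul_zero, zero_add]

/-- At the boundary `V₂₂ c` is accretive, with form bounded by `2 k ‖x‖²`. -/
lemma bdry_acc {V : Matrix (m ⊕ n) (m ⊕ n) ℂ} {c : Matrix n n ℂ} {g : Matrix n m ℂ} {k : ℝ}
    (hV : JU V) (hc : (g * V.toBlocks₁₂ + V.toBlocks₂₂) * c = 1) (hk : 1 ≤ k)
    (hg : ∀ y, nsq y ≤ k * (nsq y - nsq (g *ᵥ y))) (x : n → ℂ) :
    ‖star x ⬝ᵥ ((V.toBlocks₂₂ * c) *ᵥ x)‖ ≤ 2 * k * nsq x ∧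
      0 ≤ (star x ⬝ᵥ ((V.toBlocks₂₂ * c) *ᵥ x)).re := by
  set u := c *ᵥ x with hu
  set a := V.toBlocks₂₂ *ᵥ u with ha
  set b := V.toBlocks₁₂ *ᵥ u with hb
  have hx : x = g *ᵥ b + a := by
    have h1 := congrArg (fun M => M *ᵥ x) hc
    simp only [one_mulVec] at h1
    rw [← mulVec_mulVec, add_mulVec, ← mulVec_mulVec] at h1
    exact h1.symm
  have hVc : (V.toBlocks₂₂ * c) *ᵥ x = a := by rw [← mulVec_mulVec]
  have hba : nsq b ≤ nsq a := by
    have := hV.eq22 u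
    linarith [nsq_nonneg u]
  set t := star (g *ᵥ b) ⬝ᵥ a with ht
  have hxa : star x ⬝ᵥ a = t + (nsq a : ℂ) := by
    conv_lhs => rw [hx]
    rw [star_add, add_dotProduct, star_dot_self]
  have hA : 0 ≤ nsq a := nsq_nonneg a
  have hX : 0 ≤ nsq x := nsq_nonneg x
  have hq0 : 0 ≤ nsq (g *ᵥ b) := nsq_nonneg _
  have hB : 0 ≤ nsq b := nsq_nonneg b
  have hq : k * nsq (g *ᵥ b) ≤ (k - 1) * nsq a := by
    have h1 := hg b
    have h2 : (k - 1) * nsq b ≤ (k - 1) * nsq a :=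
      mul_le_mul_of_nonneg_left hba (by linarith)
    nlinarith
  have hk0 : 0 < k := by linarith
  have htn : 2 * k * ‖t‖ ≤ (2 * k - 1) * nsq a := by
    have h1 : ‖t‖ ^ 2 ≤ nsq (g *ᵥ b) * nsq a := cs _ _
    have h2 : (2 * k * ‖t‖) ^ 2 ≤ ((2 * k - 1) * nsq a) ^ 2 := by
      have h3 : k * ‖t‖ ^ 2 ≤ (k - 1) * nsq a * nsq a := by
        calc k * ‖t‖ ^ 2 ≤ k * (nsq (g *ᵥ b) * nsq a) := mul_le_mul_of_nonneg_left h1 hk0.le
          _ = (k * nsq (g *ᵥ b)) * nsq a := by ring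
          _ ≤ (k - 1) * nsq a * nsq a := mul_le_mul_of_nonneg_right hq hA
      have h4 : 4 * k * (k * ‖t‖ ^ 2) ≤ 4 * k * ((k - 1) * nsq a * nsq a) :=
        mul_le_mul_of_nonneg_left h3 (by linarith)
      have h5 : 0 ≤ nsq a ^ 2 := sq_nonneg _
      nlinarith
    exact (sq_le_sq₀ (by positivity) (mul_nonneg (by linarith) hA)).1 h2
  have hre : nsq a ≤ 2 * k * (star x ⬝ᵥ a).re := by
    rw [hxa, Complex.add_re, Complex.ofReal_re]
    have h1 := Complex.abs_re_le_norm t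
    have h2 := neg_abs_le t.re
    have h3 : -‖t‖ ≤ t.re := by linarith
    have h4 : 2 * k * (-‖t‖) ≤ 2 * k * t.re := mul_le_mul_of_nonneg_left h3 (by linarith)
    nlinarith
  rw [hVc]
  refine ⟨?_, ?_⟩
  · set N := ‖star x ⬝ᵥ a‖ with hN
    have hN0 : 0 ≤ N := norm_nonneg _
    have h1 : N ^ 2 ≤ nsq x * nsq a := cs _ _
    have h2 : (star x ⬝ᵥ a).re ≤ N := Complex.re_le_norm _
    have h3 : nsq a ≤ 2 * k * N := hre.trans (mul_le_mul_of_nonneg_left h2 (by linarith))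
    have h4 : N ^ 2 ≤ nsq x * (2 * k * N) := h1.trans (mul_le_mul_of_nonneg_left h3 hX)
    rcases hN0.eq_or_lt with h0 | h0
    · rw [← h0]; positivity
    · have h5 : N * N ≤ (2 * k * nsq x) * N := by nlinarith
      exact le_of_mul_le_mul_right h5 h0
  · by_contra hneg
    push Not at hneg
    have h1 : 2 * k * (star x ⬝ᵥ a).re < 0 := mul_neg_of_pos_of_neg (by linarith) hneg
    linarith

/-- If `(1 - ‖g‖²)⁻¹` is integrable on the circle, every A-singular `S` with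
`(g', I) S = c (g, I)`, `g'` a Schur function, is constant. -/
theorem const_of_L1 {S : ℂ → Matrix (m ⊕ n) (m ⊕ n) ℂ} (hS : ASingular S)
    {g g' : ℂ → Matrix n m ℂ} (hg : ∀ z ∈ disc, ∀ y, nsq (g z *ᵥ y) ≤ nsq y) (hg' : IsSchur g')
    (hgg : ∀ z ∈ disc, (g' z * (S z).toBlocks₁₂ + (S z).toBlocks₂₂) * g z
      = g' z * (S z).toBlocks₁₁ + (S z).toBlocks₂₁)
    {k : ℂ → ℝ} (hk : Integrable k σ)
    (hkg : ∀ᵐ ζ ∂σ, ∃ L, HasBdryValue g ζ L ∧ ∀ y, nsq y ≤ k ζ * (nsq y - nsq (L *ᵥ y))) :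
    ∃ C, ∀ z ∈ disc, S z = C := by
  set V : ℂ → Matrix (m ⊕ n) (m ⊕ n) ℂ := fun z => (S z)⁻¹ with hV
  have hSa : ∀ z ∈ disc, AnalyticPt S z := analyticPt_iff.1 fun i k => (hS.smirnov i k).1
  have hVa : ∀ z ∈ disc, AnalyticPt V z := analyticPt_iff.1 fun i k => (hS.smirnov_inv i k).1
  have hSm : MajM S := fun i k => (hS.smirnov i k).maj
  have hVm : MajM V := fun i k => (hS.smirnov_inv i k).maj
  have hSV : ∀ z ∈ disc, S z * V z = 1 := asing_mul hS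
  have hg'a : ∀ z ∈ disc, AnalyticPt g' z := analyticPt_iff.1 hg'.1
  have hg'b : ∀ z ∈ disc, ∀ i k, ‖g' z i k‖ ≤ 1 := fun z hz i k =>
    entry_le_one ((one_sub_iff _).1 (hg'.2 z hz)) i k
  have hg'm : MajM g' := MajM.of_bound (C := 1) hg'b
  set c : ℂ → Matrix n n ℂ := fun z => g' z * (S z).toBlocks₁₂ + (S z).toBlocks₂₂ with hc
  have hca : ∀ z ∈ disc, AnalyticPt c z := fun z hz =>
    ((hg'a z hz).mul (hSa z hz).b12).add (hSa z hz).b22
  have hcm : MajM c := (hg'm.mul fun i k => hSm _ _).add fun i k => hSm _ _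
  have hcd : ∀ z ∈ disc, c z * (g z * (V z).toBlocks₁₂ + (V z).toBlocks₂₂) = 1 :=
    fun z hz => row_inv (hSV z hz) (hgg z hz)
  have hg'bd : ∀ᵐ ζ ∂σ, ∃ L, HasBdryValue g' ζ L := by
    have h1 : ∀ i k, ∀ᵐ ζ ∂σ, ∃ L, Tendsto (fun r : ℝ => g' (r * ζ) i k) (𝓝[<] 1) (𝓝 L) :=
      fun i k => fatou (hg'.1 i k) (fun z hz => hg'b z hz i k)
    have h2 := ae_all_iff.2 fun i => ae_all_iff.2 (h1 i)
    filter_upwards [h2] with ζ hζ
    choose L hL using hζ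
    exact ⟨Matrix.of L, tendsto_entries.2 hL⟩
  have hbd : ∀ᵐ ζ ∂σ, ∃ V0 c0, HasBdryValue V ζ V0 ∧ JU V0 ∧ HasBdryValue c ζ c0 ∧
      ∀ x, ‖star x ⬝ᵥ ((V0.toBlocks₂₂ * c0) *ᵥ x)‖ ≤ 2 * max (k ζ) 1 * nsq x ∧
        0 ≤ (star x ⬝ᵥ ((V0.toBlocks₂₂ * c0) *ᵥ x)).re := by
    filter_upwards [hS.jInner.boundary, hg'bd, hkg, ae_norm] with ζ h1 h2 h3 hn
    obtain ⟨S0, hS0, hSU⟩ := h1
    obtain ⟨g'0, hg'0⟩ := h2
    obtain ⟨g0, hg0, hk0⟩ := h3
    have hSU' : JU S0 := hSU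
    have hV0 : HasBdryValue V ζ S0⁻¹ := tendsto_minv hS0 hSU'.isUnit.ne_zero
    have hc0 : HasBdryValue c ζ (g'0 * S0.toBlocks₁₂ + S0.toBlocks₂₂) :=
      Tendsto.add (tendsto_mmul hg'0 (tendsto_b12 hS0)) (tendsto_b22 hS0)
    have hgc : ∀ y, nsq (g0 *ᵥ y) ≤ nsq y := by
      intro y
      apply le_of_tendsto (tendsto_nsq hg0 y)
      filter_upwards [eventually_r] with r hr
      exact hg _ (dil_mem hr hn) y
    have hid : (g'0 * S0.toBlocks₁₂ + S0.toBlocks₂₂)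
        * (g0 * (S0⁻¹).toBlocks₁₂ + (S0⁻¹).toBlocks₂₂) = 1 := by
      have h5 : Tendsto (fun r : ℝ => c (r * ζ) * (g (r * ζ) * (V (r * ζ)).toBlocks₁₂
          + (V (r * ζ)).toBlocks₂₂)) (𝓝[<] 1) (𝓝 ((g'0 * S0.toBlocks₁₂ + S0.toBlocks₂₂)
        * (g0 * (S0⁻¹).toBlocks₁₂ + (S0⁻¹).toBlocks₂₂))) :=
        tendsto_mmul hc0 (Tendsto.add (tendsto_mmul hg0 (tendsto_b12 hV0)) (tendsto_b22 hV0))
      have h6 : Tendsto (fun r : ℝ => c (r * ζ) * (g (r * ζ) * (V (r * ζ)).toBlocks₁₂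
          + (V (r * ζ)).toBlocks₂₂)) (𝓝[<] 1) (𝓝 1) := by
        refine tendsto_const_nhds.congr' ?_
        filter_upwards [eventually_r] with r hr
        exact (hcd _ (dil_mem hr hn)).symm
      exact tendsto_nhds_unique h5 h6
    refine ⟨S0⁻¹, _, hV0, hSU'.inv, hc0, fun x =>
      bdry_acc hSU'.inv (mul_eq_one_comm.1 hid) (le_max_right _ _) ?_ x⟩
    intro y
    have h7 := hk0 y
    have h8 := hgc y
    have h9 : k ζ * (nsq y - nsq (g0 *ᵥ y)) ≤ max (k ζ) 1 * (nsq y - nsq (g0 *ᵥ y)) :=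
      mul_le_mul_of_nonneg_right (le_max_left _ _) (by linarith)
    linarith
  have hacc : ∀ z ∈ disc, ∀ x, 0 ≤ (star x ⬝ᵥ (((V z).toBlocks₂₂ * c z) *ᵥ x)).re := by
    intro z hz x
    refine re_nonneg_of_L1 (h := fun z => star x ⬝ᵥ (((V z).toBlocks₂₂ * c z) *ᵥ x))
      (k := fun ζ => 2 * max (k ζ) 1 * nsq x) ?_ ?_ ?_ ?_ z hz
    · intro z hz
      exact (analyticAt_form (((hVa z hz).b22).mul (hca z hz)) _
        _).differentiableAt.differentiableWithinAt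
    · have h1 : MajM fun z => (V z).toBlocks₂₂ := fun i k => hVm _ _
      exact (h1.mul hcm).form _ _
    · exact ((hk.sup (integrable_const 1)).const_mul 2).mul_const _
    · filter_upwards [hbd] with ζ hζ
      obtain ⟨V0, c0, hV0, -, hc0, hx⟩ := hζ
      exact ⟨_, tendsto_form (tendsto_mmul (tendsto_b22 hV0) hc0) _ _, (hx x).1, (hx x).2⟩
  have hV22 : ∀ z ∈ disc, ∀ w, nsq w ≤ nsq ((V z).toBlocks₂₂ *ᵥ w) :=
    inv_bound (h := fun _ => 1) (differentiableOn_const _) ⟨0, by simp, one_ne_zero⟩ hVa hca hcm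
      hacc (fun z hz _ => isUnit_det_of_right_inverse (hcd z hz)) (by
        filter_upwards [hbd] with ζ hζ
        obtain ⟨V0, c0, hV0, hJ, hc0, -⟩ := hζ
        exact ⟨V0, c0, hV0, hJ, hc0⟩)
  have hSC : ∀ z ∈ disc, JC (S z) := fun z hz =>
    (jc_iff _).1 (hS.jInner.contractive z hz (hSa z hz))
  exact const_of_bound hSa hVa hSC hVm hV22 (by
    filter_upwards [hS.jInner.boundary] with ζ hζ
    obtain ⟨S0, hS0, hSU⟩ := hζ
    have hSU' : JU S0 := hSU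
    exact ⟨S0, hS0, hSU, tendsto_minv hS0 hSU'.isUnit.ne_zero⟩)

/-- The special case `sup ‖g‖ < 1`. -/
theorem const_of_strict {S : ℂ → Matrix (m ⊕ n) (m ⊕ n) ℂ} (hS : ASingular S)
    {g g' : ℂ → Matrix n m ℂ} (hgd : ∀ i k, DifferentiableOn ℂ (fun z => g z i k) disc)
    (hg' : IsSchur g') {ρ : ℝ} (hρ0 : 0 ≤ ρ) (hρ : ρ < 1)
    (hg : ∀ z ∈ disc, ∀ y, nsq (g z *ᵥ y) ≤ ρ ^ 2 * nsq y)
    (hgg : ∀ z ∈ disc, (g' z * (S z).toBlocks₁₂ + (S z).toBlocks₂₂) * g z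
      = g' z * (S z).toBlocks₁₁ + (S z).toBlocks₂₁) :
    ∃ C, ∀ z ∈ disc, S z = C := by
  have hρ2 : ρ ^ 2 < 1 := by nlinarith
  have hg1 : ∀ z ∈ disc, ∀ y, nsq (g z *ᵥ y) ≤ nsq y := fun z hz y =>
    (hg z hz y).trans (by nlinarith [nsq_nonneg y])
  have hgb : ∀ z ∈ disc, ∀ i k, ‖g z i k‖ ≤ 1 := fun z hz i k => entry_le_one (hg1 z hz) i k
  refine const_of_L1 hS hg1 hg' hgg (k := fun _ => (1 - ρ ^ 2)⁻¹) (integrable_const _) ?_
  have h1 : ∀ i k, ∀ᵐ ζ ∂σ, ∃ L, Tendsto (fun r : ℝ => g (r * ζ) i k) (𝓝[<] 1) (𝓝 L) :=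
    fun i k => fatou (hgd i k) (fun z hz => hgb z hz i k)
  have h2 := ae_all_iff.2 fun i => ae_all_iff.2 (h1 i)
  filter_upwards [h2, ae_norm] with ζ hζ hn
  choose L hL using hζ
  have hL' : HasBdryValue g ζ (Matrix.of L) := tendsto_entries.2 hL
  refine ⟨Matrix.of L, hL', fun y => ?_⟩
  have h3 : nsq (Matrix.of L *ᵥ y) ≤ ρ ^ 2 * nsq y := by
    apply le_of_tendsto (tendsto_nsq hL' y)
    filter_upwards [eventually_r] with r hr
    exact hg _ (dil_mem hr hn) y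
  have h4 : 0 < 1 - ρ ^ 2 := by linarith
  rw [inv_mul_eq_div, le_div_iff₀ h4]
  linarith

end Pool.Agent.H99K
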